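import Pool.Agent.H4.UL3
import Pool.Agent.H21.Ten3
import Pool.Agent.H11.GDefs

set_option autoImplicit false

namespace Pool.Agent.Results.MP_f9087f_lc.Hard

open Pool.Agent.H11.PT Pool.Agent.H21.ER Pool.Agent.H4.UL RealInnerProductSpace

def tm (h : H3) : List ℕ := [0, 1, h.1.1 + 1, h.1.2 + 1, h.2.1.1 + 1, h.2.1.2 + 1, h.2.2.1 + 1, h.2.2.2 + 1]

def vx (D m : ℕ) (h : H3 × ℕ) (c : Bool × ℕ) : ℕ := bif c.1 then (tm h.1).getD c.2 0 else D + 2 + (h.2 * m + c.2)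

def red (m : ℕ) (L : List ((Bool × ℕ) × Bool × ℕ)) (D : ℕ) (H : List H3) : ℕ × List (ℕ × ℕ) :=
  (D + 2 + H.length * m, H.zipIdx.flatMap fun h => L.map fun e => (vx D m h e.1, vx D m h e.2))

variable {d D m : ℕ} {H : List H3} {L : List ((Bool × ℕ) × Bool × ℕ)}

lemma tm_lt (hb : Bd D H) {h : H3} (hh : h ∈ H) (j : ℕ) : (tm h).getD j 0 < D + 1 := by
  have := hb h hh
  rcases j with _ | _ | _ | _ | _ | _ | _ | _ | j <;> simp [tm] <;> omega

lemma hz (h : H3 × ℕ) (hh : h ∈ H.zipIdx) : h.1 ∈ H ∧ h.2 < H.length ∧ H.getD h.2 default = h.1 := by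
  rw [List.mem_zipIdx_iff_getElem?, List.getElem?_eq_some_iff] at hh
  obtain ⟨a, b⟩ := hh
  exact ⟨b ▸ List.getElem_mem a, a, by rw [List.getD_eq_getElem _ _ a, b]⟩

lemma compl (hb : Bd D H) (h1 : ∀ e ∈ L, e.1.2 < (bif e.1.1 then 8 else m) ∧ e.2.2 < (bif e.2.1 then 8 else m) ∧
      e.1 ≠ e.2 ∧ (e.1.1 && e.2.1) = false)
    (h3 : ∀ T : ℕ → V d, (MC fun t : Fin 8 => T t) → ∃ q : ℕ → V d, Rl L fun c => bif c.1 then T c.2 else q c.2)
    {x : ℕ → ℝ} (x0 : x 0 ≠ 0) (hx : ∀ h ∈ H, h.q x = 0) (hs : ∀ i < D, |x i| ≤ |x 0|) :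
    ∃ P : ℕ → V d, Rl (red m L D H).2 P := by
  let P0 : ℕ → V d := fun v => (if v = 0 then 0 else x (v - 1) / x 0 : ℝ) • ee d
  have : ∀ h : H3, ∃ q : ℕ → V d, h ∈ H → Rl L fun c => bif c.1 then P0 ((tm h).getD c.2 0) else q c.2 := fun h => by
    by_cases hh : h ∈ H
    swap
    · exact ⟨fun _ => 0, fun a => (hh a).elim⟩
    have : MC fun t : Fin 8 => P0 ((tm h).getD t 0) := by
      refine ⟨fun t => if (tm h).getD t 0 = 0 then 0 else
        x ((tm h).getD t 0 - 1) / x 0, fun i => ?_, by simp [tm], by simp [tm, x0], fun _ => rfl, ?_⟩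
      · beta_reduce
        split_ifs with h0
        · simp
        · rw [abs_div, div_le_one (abs_pos.2 x0)]
          exact hs _ (by have := tm_lt hb hh i; omega)
      · have := hx h hh
        simp only [H3.q, H21.ER.mv] at this
        simp [tm]
        field_simp
        linear_combination this
    obtain ⟨q, hq⟩ := h3 (fun t => P0 ((tm h).getD t 0)) this
    exact ⟨q, fun _ => hq⟩
  choose q hq using this
  obtain ⟨P, hP0⟩ : ∃ P : ℕ → V d, ∀ v, P v = if v < D + 2 then P0 v else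
    q (H.getD ((v - (D + 2)) / m) default) ((v - (D + 2)) % m) := ⟨_, fun _ => rfl⟩
  have hP : ∀ h ∈ H.zipIdx, ∀ c : Bool × ℕ, c.2 < (bif c.1 then 8 else m) →
      P (vx D m h c) = bif c.1 then P0 ((tm h.1).getD c.2 0) else q h.1 c.2 := by
    rintro h hh ⟨_ | _, j⟩ hj
    · simp only [cond_false] at hj
      simp only [vx, cond_false, hP0, if_neg (Nat.le_add_right _ _).not_gt, Nat.add_sub_cancel_left,
        Nat.mul_add_mod_self_right, Nat.mod_eq_of_lt hj]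
      rw [add_comm, Nat.add_mul_div_right _ _ (by omega), Nat.div_eq_of_lt hj, zero_add, (hz h hh).2.2]
    · have := tm_lt hb (hz h hh).1 j
      simp only [vx, cond_true, hP0]
      rw [if_pos (by omega)]
  refine ⟨P, ?_⟩
  simp only [Rl, red, List.forall_mem_flatMap, List.forall_mem_map]
  intro h hh e he
  rw [hP h hh _ (h1 e he).1, hP h hh _ (h1 e he).2.1]
  exact hq _ (hz h hh).1 e he

lemma wf (hb : Bd D H) (h1 : ∀ e ∈ L, e.1.2 < (bif e.1.1 then 8 else m) ∧ e.2.2 < (bif e.2.1 then 8 else m) ∧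
      e.1 ≠ e.2 ∧ (e.1.1 && e.2.1) = false) :
    ∀ e ∈ (red m L D H).2, e.1 < (red m L D H).1 ∧ e.2 < (red m L D H).1 ∧ e.1 ≠ e.2 := by
  simp only [red, List.forall_mem_flatMap, List.forall_mem_map]
  intro h hh e he
  have := Nat.mul_le_mul_right m (hz h hh).2.1
  have t1 := tm_lt hb (hz h hh).1 e.1.2
  have t2 := tm_lt hb (hz h hh).1 e.2.2
  obtain ⟨a1, a2, a3, a4⟩ := h1 e he
  rcases e with ⟨⟨_ | _, i⟩, _ | _, j⟩ <;>
    simp only [vx, cond_true, cond_false, ne_eq, Prod.mk.injEq, true_and, Bool.and_self,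
      Bool.true_eq_false, Nat.succ_mul] at * <;> omega

lemma sound (h2 : ∀ T q : ℕ → V d, Rl L (fun c => bif c.1 then T c.2 else q c.2) → MS fun t : Fin 8 => T t)
    (hH : H ≠ []) {P : ℕ → V d} (hP : Rl (red m L D H).2 P) : ∃ x, x 0 ≠ 0 ∧ FF H x = 0 := by
  simp only [Rl, red, List.forall_mem_flatMap, List.forall_mem_map] at hP
  have h' : ∀ h ∈ H, MS fun t : Fin 8 => P ((tm h).getD t 0) := fun h hh => by
    obtain ⟨i, hi, rfl⟩ := List.getElem_of_mem hh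
    refine h2 (fun t => P ((tm H[i]).getD t 0)) (fun j => P (D + 2 + (i * m + j))) fun e he => ?_
    have e1 : ∀ c : Bool × ℕ, (bif c.1 then P ((tm H[i]).getD c.2 0) else P (D + 2 + (i * m + c.2))) =
        P (vx D m (H[i], i) c) := by rintro ⟨_ | _, j⟩ <;> rfl
    simp only [e1]
    exact hP _ (by simp [List.mem_zipIdx_iff_getElem?]) e he
  refine ⟨fun i => ⟪P (i + 1) - P 0, P 1 - P 0⟫, ?_, FF_zero.2 fun h hh => (h' h hh).2⟩
  obtain ⟨h, hh⟩ := List.exists_mem_of_ne_nil _ hH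
  exact inner_self_ne_zero.2 (h' h hh).1

lemma gr_iff {n : ℕ} {E : List (ℕ × ℕ)} (h : ∀ e ∈ E, e.1 < n ∧ e.2 < n ∧ e.1 ≠ e.2) :
    (∃ P : ℕ → V d, Rl E P) ↔ ∃ p : Fin n → V d, ∀ u v, (gr n E).Adj u v → dist (p u) (p v) = 1 := by
  refine ⟨fun ⟨P, hP⟩ => ⟨fun v => P v, fun u v h => ?_⟩, fun ⟨p, hp⟩ =>
    ⟨fun v => if h : v < n then p ⟨v, h⟩ else 0, fun e he => ?_⟩⟩
  · rcases ((SimpleGraph.fromRel_adj _ _ _).1 h).2 with h | h
    · exact hP (u, v) h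
    · exact (dist_comm _ _).trans (hP (v, u) h)
  · obtain ⟨a, b, c⟩ := h e he
    simp only [dif_pos a, dif_pos b]
    exact hp _ _ ((SimpleGraph.fromRel_adj _ _ _).2 ⟨fun h' => c (congrArg Fin.val h'), .inl he⟩)

theorem result (d : ℕ) (hd : 3 ≤ d) : ∃ f : Qf → ℕ × List (ℕ × ℕ), PolyTime bits bits f ∧ ∀ φ,
    (ETR φ ↔ ∃ p : Fin (f φ).1 → EuclideanSpace ℝ (Fin d),
      ∀ u v, (gr (f φ).1 (f φ).2).Adj u v → dist (p u) (p v) = 1) := by
  have hu := uu_pos hd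
  have hu' := uu_le hd
  obtain ⟨m, L, h1, h2, h3⟩ := (master hd).num ⟨fun i => (if i = 1 then 1 else 0 : ℝ) • ee d,
    ⟨fun i => if i = 1 then 1 else 0, fun i => by beta_reduce; split_ifs <;> simp, by simp, by simp,
      fun _ => rfl, by simp⟩, fun a b => by beta_reduce; split_ifs <;> simp [ee_norm hd] <;> linarith⟩
  refine ⟨fun φ => red m L (DD φ) (HH φ), PT.polyTime (by unfold red vx tm; fun_prop), fun φ => ?_⟩
  rw [HH_iff, ← gr_iff (wf (HH_bd φ) h1)]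
  refine ⟨fun ⟨x, x0, hx⟩ => compl (HH_bd φ) h1 h3 x0 (FF_zero.1 hx) fun i hi => ?_,
    fun ⟨P, hP⟩ => sound h2 (HH_ne φ) hP⟩
  have := HH_slack φ hi x
  rwa [hx, Real.sqrt_zero, add_zero, sq_le_sq] at this

end Pool.Agent.Results.MP_f9087f_lc.Hard
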